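import Pool.Agent.H25.RefS

set_option autoImplicit false
open Set

namespace Pool.Agent.Results.MP_06a8b9_al.No

theorem result : ∃ (G : Type) (_ : CommGroup G) (_ : TopologicalSpace G)
    (_ : IsTopologicalGroup G), Infinite G ∧ T2Space G ∧
      (∃ e : G ≃ₜ* PontryaginDual (PontryaginDual G),
        ∀ (g : G) (χ : PontryaginDual G), e g χ = χ g) ∧
      ∀ N : Subgroup G, IsClosed (N : Set G) → N ≠ ⊤ →
        ¬ TopologicalSpace.SeparableSpace (G ⧸ N) := by
  obtain ⟨H, -, h2, -, h4, h5, h6⟩ := Pool.Agent.H25.RefS.main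
  have h7 : ¬ (univ : Set H).Countable := fun h => h2 (countable_coe_iff.1 (countable_univ_iff.1 h))
  refine ⟨H, inferInstance, inferInstance, inferInstance, infinite_univ_iff.1
    fun h => h7 h.countable, inferInstance, h6, fun N h1 h3 ⟨D, d1, d2⟩ => ?_⟩
  have h8 : (N : Set H).Countable := by_contra fun h =>
    h3 (Subgroup.coe_eq_univ.1 (h1.closure_eq.symm.trans (h5 N h).closure_eq))
  have h9 : ((QuotientGroup.mk : H → H ⧸ N) ⁻¹' D).Countable :=
    ((d1.prod h8).image fun p : (H ⧸ N) × H => p.1.out * p.2).mono fun x hx => by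
      exact ⟨((x : H ⧸ N), (x : H ⧸ N).out⁻¹ * x),
        ⟨hx, QuotientGroup.eq.1 (Quotient.out_eq' _)⟩, by simp⟩
  have := h9.to_subtype
  let K := (FreeGroup.lift (Subtype.val : (QuotientGroup.mk : H → H ⧸ N) ⁻¹' D → H)).range
  have h10 : (K : Set H).Countable := countable_range _
  exact h7 (h10.mono ((d2.preimage QuotientGroup.isOpenMap_coe).closure_eq.ge.trans
    (closure_minimal (fun x hx => by exact ⟨.of ⟨x, hx⟩, by simp⟩) (h4 _ h10))))

end Pool.Agent.Results.MP_06a8b9_al.No
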